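import Mathlib
import Pool.Agent.H.MP_f969e6_lc.Main

set_option autoImplicit false

namespace Pool.Agent.Results.MP_f969e6_lc.Counter

open Pool.Agent.H.MP_f969e6_lc Polynomial

theorem result : ∃ g : (ZMod 2)[X], g.Monic ∧ g ∣ X ^ 20 + X ^ 10 + 1 ∧
    IsoDual (code 20 (X ^ 20 + X ^ 10 + 1) g) ∧ g ^ 2 ≠ X ^ 20 + X ^ 10 + 1 :=
  ⟨gg, gg_monic, gg_dvd, isoDual, gg_sq⟩

end Pool.Agent.Results.MP_f969e6_lc.Counter
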